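import Pool.Agent.V11329.KI.Iso
import Pool.Agent.Y667.BKP.Main
import Pool.Agent.TH841.SH.Alg2
import Pool.Agent.TH942.FG
import Pool.Agent.Y700.VC

/-!
# The 2-adic Kummer map of an elliptic curve over a number field
-/

set_option autoImplicit false

namespace Pool.Agent.V11329.KI

open WeierstrassCurve

open scoped Classical

open Pool.Agent.TH841.SH.D (Pt act Gal Coch IsCoc IsCob LocTriv cob)
open Pool.Agent.TH841.NF.D (Sha shaCoc IsShaCoc)
open Pool.Agent.TH942 (sw SPt)
open Pool.Agent.Y700 (VR)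

section gen

variable {K : Type} [Field K] [CharZero K]

lemma vr (W : WeierstrassCurve K) :
    VR (sw (-27 * W.c₄) (-54 * W.c₆)) W 6 (3 * W.b₂) (3 * W.a₁) (108 * W.a₃) where
  u0 := by norm_num
  e1 := by
    simp only [sw]
    ring
  e2 := by
    simp only [sw, WeierstrassCurve.b₂]
    ring
  e3 := by
    simp only [sw]
    ring
  e4 := by
    simp only [sw, WeierstrassCurve.c₄, WeierstrassCurve.b₂, WeierstrassCurve.b₄]
    ring
  e6 := by
    simp only [sw, WeierstrassCurve.c₄, WeierstrassCurve.c₆, WeierstrassCurve.b₂,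
      WeierstrassCurve.b₄, WeierstrassCurve.b₆]
    ring

lemma short_disc {W : WeierstrassCurve K} (hD : W.Δ ≠ 0) :
    4 * (-27 * W.c₄) ^ 3 + 27 * (-54 * W.c₆) ^ 2 ≠ 0 := by
  intro h
  apply (vr W).delta_ne hD
  rw [Pool.Agent.TH942.sw_Δ, h, mul_zero]

/-- the Mordell–Weil theorem -/
lemma mw {F : Type} [Field F] [NumberField F] {W : WeierstrassCurve F} (hD : W.Δ ≠ 0) :
    Module.Finite ℤ W.toAffine.Point := by
  rw [Module.Finite.iff_addGroup_fg]
  exact Pool.Agent.TH942.fg_of_inj ((vr W).equiv hD).toAddMonoidHom ((vr W).equiv hD).injective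
    (Pool.Agent.TH942.sfg (short_disc hD))

/-- division by two over algebraically closed fields -/
lemma div2 [IsAlgClosed K] {W : WeierstrassCurve K} (hD : W.Δ ≠ 0) (P : W.toAffine.Point) :
    ∃ Q, 2 • Q = P := by
  have hab := short_disc hD
  obtain ⟨a, ha'⟩ : ∃ a, a = -27 * W.c₄ := ⟨_, rfl⟩
  obtain ⟨b, hb'⟩ : ∃ b, b = -54 * W.c₆ := ⟨_, rfl⟩
  have key : ∀ R : SPt a b, ∃ Q, 2 • Q = R := by
    let C : Cubic K := ⟨1, 0, a, b⟩
    have ha : C.a ≠ 0 := one_ne_zero
    have hsp : Polynomial.Splits (C.toPoly.map (RingHom.id K)) := IsAlgClosed.splits _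
    obtain ⟨x, y, z, h3⟩ := (Cubic.splits_iff_roots_eq_three ha).1 hsp
    have hdisc : C.discr ≠ 0 := by
      have h : C.discr = -(4 * a ^ 3 + 27 * b ^ 2) := by
        simp only [Cubic.discr, C]
        ring
      rw [h, neg_ne_zero, ha', hb']
      exact hab
    obtain ⟨hxy, hxz, hyz⟩ := (Cubic.discr_ne_zero_iff_roots_ne ha h3).1 hdisc
    have hb := Cubic.b_eq_three_roots ha h3
    have hc := Cubic.c_eq_three_roots ha h3
    have hd := Cubic.d_eq_three_roots ha h3
    simp only [C, map_one, map_zero, one_mul, RingHom.id_apply] at hb hc hd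
    have hR : Pool.Agent.TH841.SH.IsR (sw a b) x y z := ⟨rfl, by
      show (0 : K) = _
      linear_combination hb, rfl, by
      show a = _
      linear_combination hc, by
      show b = _
      linear_combination hd⟩
    intro R
    obtain ⟨Q, hQ⟩ := hR.div two_ne_zero hxy hxz hyz R
    exact ⟨Q, by rw [two_nsmul]; exact hQ.symm⟩
  subst ha' hb'
  obtain ⟨Q, hQ⟩ := key ((vr W).equiv hD P)
  refine ⟨((vr W).equiv hD).symm Q, ?_⟩
  rw [← map_nsmul, hQ, AddEquiv.symm_apply_apply]

end gen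

section act

variable {F : Type} [Field F]

lemma lc_apply (x : AlgebraicClosure F) : IsLocallyConstant (fun σ : Gal F => σ x) := by
  rw [IsLocallyConstant.iff_exists_open]
  intro σ
  have hx : IsIntegral F x := Algebra.IsIntegral.isIntegral x
  have : FiniteDimensional F (IntermediateField.adjoin F {x}) :=
    IntermediateField.adjoin.finiteDimensional hx
  refine ⟨(fun τ => σ⁻¹ * τ) ⁻¹'
    ((IntermediateField.adjoin F {x}).fixingSubgroup : Set (Gal F)),
    (IntermediateField.fixingSubgroup_isOpen _).preimage (continuous_const_mul _), ?_, ?_⟩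
  · show σ⁻¹ * σ ∈ (IntermediateField.adjoin F {x}).fixingSubgroup
    rw [inv_mul_cancel]
    exact one_mem _
  · intro τ hτ
    have h1 : σ⁻¹ * τ ∈ (IntermediateField.adjoin F {x}).fixingSubgroup := hτ
    rw [IntermediateField.mem_fixingSubgroup_iff] at h1
    have h2 := h1 x (IntermediateField.mem_adjoin_simple_self F x)
    rw [AlgEquiv.mul_apply] at h2
    have h3 := congrArg σ h2
    rw [← AlgEquiv.mul_apply, mul_inv_cancel, AlgEquiv.one_apply] at h3
    exact h3

lemma act_some (W : WeierstrassCurve F) {K L : Type} [Field K] [Field L] [Algebra F K]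
    [Algebra F L] (φ : K →ₐ[F] L) {x y : K} (h : (W.baseChange K).toAffine.Nonsingular x y) :
    act W φ (.some x y h) =
      .some (φ x) (φ y) ((Affine.baseChange_nonsingular W φ.injective ..).mpr h) := rfl

lemma act_act (W : WeierstrassCurve F) {K L M : Type} [Field K] [Field L] [Field M] [Algebra F K]
    [Algebra F L] [Algebra F M] (φ : K →ₐ[F] L) (ψ : L →ₐ[F] M) (P : Pt W K) :
    act W ψ (act W φ P) = act W (ψ.comp φ) P := by
  rcases P with _ | ⟨x, y, h⟩
  · rfl
  · rfl

lemma lc_act (W : WeierstrassCurve F) (Q : Pt W (AlgebraicClosure F)) :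
    IsLocallyConstant (fun σ : Gal F => act W σ.toAlgHom Q) := by
  rcases Q with _ | ⟨x, y, h⟩
  · exact IsLocallyConstant.const _
  · rw [IsLocallyConstant.iff_eventually_eq]
    intro σ
    have h1 := ((IsLocallyConstant.iff_eventually_eq _).1 (lc_apply x)) σ
    have h2 := ((IsLocallyConstant.iff_eventually_eq _).1 (lc_apply y)) σ
    filter_upwards [h1, h2] with τ h3 h4
    rw [act_some, act_some]
    congr 1

lemma locTriv_cob (W : WeierstrassCurve F) (K : Type) [Field K] [Algebra F K]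
    (Q : Pt W (AlgebraicClosure F)) : LocTriv W K (fun σ => act W σ.toAlgHom Q - Q) := by
  intro ι
  refine ⟨act W ι Q, fun τ σ h => ?_⟩
  rw [map_sub, act_act, act_act]
  have e : ι.comp σ.toAlgHom = (τ.toAlgHom.restrictScalars F).comp ι := by
    apply AlgHom.ext
    intro x
    exact (h x).symm
  rw [e]

end act

variable {F : Type} [Field F] [NumberField F]

/-- the action of the absolute Galois group on the points over the algebraic closure -/
noncomputable def gal (W : WeierstrassCurve F) (σ : Gal F) :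
    Pt W (AlgebraicClosure F) →+ Pt W (AlgebraicClosure F) := act W σ.toAlgHom

/-- the cocycles of the Tate–Shafarevich group, as a group of functions -/
noncomputable def shaF (W : WeierstrassCurve F) : AddSubgroup (Gal F → Pt W (AlgebraicClosure F)) where
  carrier := {f | IsShaCoc W f}
  zero_mem' := (shaCoc W).zero_mem
  add_mem' := fun {f g} hf hg => (shaCoc W).add_mem (x := f) (y := g) hf hg
  neg_mem' := fun {f} hf => (shaCoc W).neg_mem (x := f) hf

lemma dl_mem (W : WeierstrassCurve F) (P : Pt W (AlgebraicClosure F)) :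
    dl (gal W) P ∈ shaF W := by
  refine ⟨⟨(lc_act W P).sub (IsLocallyConstant.const P), fun σ τ => ?_⟩, fun v => locTriv_cob W _ P,
    fun v => locTriv_cob W _ P⟩
  show act W (σ * τ).toAlgHom P - P = (act W σ.toAlgHom P - P) +
    act W σ.toAlgHom (act W τ.toAlgHom P - P)
  have h : act W (σ * τ).toAlgHom P = act W σ.toAlgHom (act W τ.toAlgHom P) := by
    rw [act_act]
    rfl
  rw [map_sub, h]
  abel

/-- the fixed points are finitely generated -/
lemma fix_fg {W : WeierstrassCurve F} (hD : W.Δ ≠ 0) : Module.Finite ℤ (Fix (gal W)) := by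
  have h1 := mw hD
  obtain ⟨j, -, hj1, hj2⟩ := Pool.Agent.Y667.BKP.exists_rat W
  let f : W.toAffine.Point →+ Fix (gal W) := j.codRestrict _ (fun P σ => hj1 σ P)
  refine Module.Finite.of_surjective f.toIntLinearMap ?_
  intro P
  obtain ⟨q, hq⟩ := hj2 P.1 P.2
  exact ⟨q, Subtype.ext hq⟩

/-- the 2-adic Kummer map is an isomorphism if the 2-primary part of `Ш` is finite -/
theorem kummer2 {W : WeierstrassCurve F} (hD : W.Δ ≠ 0) (m : ℕ)
    (hS : ∀ (k : ℕ) (x : Sha W), 2 ^ k • x = 0 → 2 ^ m • x = 0) :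
    (∀ (P : Fix (gal W)) (α : ℚ_[2]), ∃ c : ZV 2 (shaF W),
      IsKum (gal W) (P : Pt W (AlgebraicClosure F)) α c.1) ∧
    ∃ Φ : TensorProduct ℤ (Fix (gal W)) ℚ_[2] ≃+ HV 2 (gal W) (shaF W),
      ∀ (P : Fix (gal W)) (α : ℚ_[2]) (c : ZV 2 (shaF W)),
        IsKum (gal W) (P : Pt W (AlgebraicClosure F)) α c.1 →
        Φ (TensorProduct.tmul ℤ P α) = QuotientAddGroup.mk c := by
  have hdiv : ∀ x : Pt W (AlgebraicClosure F), ∃ y, 2 • y = x := by
    intro x
    have hD' : (W.baseChange (AlgebraicClosure F)).Δ ≠ 0 := by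
      rw [WeierstrassCurve.baseChange, WeierstrassCurve.map_Δ]
      exact (map_ne_zero _).2 hD
    exact div2 hD' x
  refine ⟨fun P α => exists_kum _ _ hdiv (dl_mem W) P α,
    kummer_iso (gal W) (shaF W) hdiv (fix_fg hD) (dl_mem W) ?_ m ?_⟩
  · intro f hf htor
    have hfin : (Set.range f).Finite := hf.1.1.range_finite
    choose e he using htor
    have hex : ∀ y ∈ Set.range f, ∃ k : ℕ, (2 ^ k : ℕ) • y = 0 := by
      rintro y ⟨σ, rfl⟩
      exact ⟨e σ, he σ⟩
    choose! k hk using hex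
    obtain ⟨K, hK⟩ := (hfin.image k).bddAbove
    refine ⟨K, fun σ => ?_⟩
    have h1 := hk _ (Set.mem_range_self σ)
    have h2 : k (f σ) ≤ K := hK ⟨_, Set.mem_range_self σ, rfl⟩
    rw [← Nat.sub_add_cancel h2, pow_add, mul_smul, h1, smul_zero]
  · intro f hf k ⟨P, hP⟩
    obtain ⟨g, hg⟩ : ∃ g : shaCoc W, g.1 = f := ⟨⟨f, hf⟩, rfl⟩
    have h1 : (2 ^ k : ℕ) • (QuotientAddGroup.mk g : Sha W) = 0 := by
      rw [← QuotientAddGroup.mk_nsmul]
      refine (QuotientAddGroup.eq_zero_iff _).2 ?_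
      rw [AddSubgroup.mem_addSubgroupOf]
      refine ⟨P, fun σ => ?_⟩
      rw [AddSubgroup.coe_nsmul, hg]
      exact congrFun hP σ
    have h3 : (QuotientAddGroup.mk ((2 ^ m : ℕ) • g) : Sha W) = 0 := by
      rw [QuotientAddGroup.mk_nsmul]
      exact hS k _ h1
    have h4 := (QuotientAddGroup.eq_zero_iff _).1 h3
    rw [AddSubgroup.mem_addSubgroupOf] at h4
    obtain ⟨R, hR⟩ := h4
    refine ⟨R, funext fun σ => ?_⟩
    have h5 := hR σ
    rw [AddSubgroup.coe_nsmul, hg] at h5
    exact h5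

end Pool.Agent.V11329.KI
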