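import Pool.Agent.V11329.KI.Mul

/-!
# The Kummer map is an isomorphism: abstract form
-/

set_option autoImplicit false

namespace Pool.Agent.V11329.KI

open TensorProduct

section

variable {G : Type*} {A : Type*} [AddCommGroup A]

/-- the fixed points -/
def Fix (s : G → A →+ A) : AddSubgroup A where
  carrier := {P | ∀ σ, s σ P = P}
  zero_mem' := fun σ => map_zero _
  add_mem' := fun hP hQ σ => by rw [map_add, hP σ, hQ σ]
  neg_mem' := fun hP σ => by rw [map_neg, hP σ]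

/-- the coboundary of a point -/
def dl (s : G → A →+ A) (P : A) : G → A := fun σ => s σ P - P

lemma dl_add (s : G → A →+ A) (P Q : A) : dl s (P + Q) = dl s P + dl s Q := by
  funext σ
  simp only [dl, Pi.add_apply, map_add]
  abel

lemma dl_sub (s : G → A →+ A) (P Q : A) : dl s (P - Q) = dl s P - dl s Q := by
  funext σ
  simp only [dl, Pi.sub_apply, map_sub]
  abel

lemma dl_zsmul (s : G → A →+ A) (a : ℤ) (P : A) : dl s (a • P) = a • dl s P := by
  funext σ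
  simp only [dl, Pi.smul_apply, map_zsmul, smul_sub]

lemma dl_nsmul (s : G → A →+ A) (a : ℕ) (P : A) : dl s (a • P) = a • dl s P := by
  funext σ
  simp only [dl, Pi.smul_apply, map_nsmul, smul_sub]

lemma dl_sum {ι : Type*} (s : G → A →+ A) (S : Finset ι) (P : ι → A) :
    dl s (∑ i ∈ S, P i) = ∑ i ∈ S, dl s (P i) := by
  funext σ
  simp only [dl, Finset.sum_apply, map_sum, Finset.sum_sub_distrib]

lemma dl_eq_zero {s : G → A →+ A} {P : A} : dl s P = 0 ↔ P ∈ Fix s := by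
  constructor
  · intro h σ
    exact sub_eq_zero.1 (congrFun h σ)
  · intro h
    funext σ
    exact sub_eq_zero.2 (h σ)

variable (p : ℕ)

/-- the cocycles with values in `V_p(A)` whose coordinates are in `S` -/
def ZV (S : AddSubgroup (G → A)) : AddSubgroup (G → ℕ → A) where
  carrier := {c | (∀ n, (fun σ => c σ n) ∈ S) ∧ ∀ σ, IsV p (c σ)}
  zero_mem' := ⟨fun _ => S.zero_mem, fun _ => IsV.zero⟩
  add_mem' := fun hc hd => ⟨fun n => S.add_mem (hc.1 n) (hd.1 n), fun σ => (hc.2 σ).add (hd.2 σ)⟩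
  neg_mem' := fun hc => ⟨fun n => S.neg_mem (hc.1 n), fun σ => (hc.2 σ).neg⟩

/-- the coboundaries -/
def BV (s : G → A →+ A) : AddSubgroup (G → ℕ → A) where
  carrier := {c | ∃ x : ℕ → A, IsV p x ∧ ∀ σ n, c σ n = s σ (x n) - x n}
  zero_mem' := ⟨0, IsV.zero, fun σ n => by simp⟩
  add_mem' := by
    rintro c d ⟨x, hx, hc⟩ ⟨y, hy, hd⟩
    refine ⟨x + y, hx.add hy, fun σ n => ?_⟩
    rw [Pi.add_apply, Pi.add_apply, hc, hd, Pi.add_apply, map_add]
    abel
  neg_mem' := by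
    rintro c ⟨x, hx, hc⟩
    refine ⟨-x, hx.neg, fun σ n => ?_⟩
    rw [Pi.neg_apply, Pi.neg_apply, hc, Pi.neg_apply, map_neg]
    abel

/-- the cohomology group -/
abbrev HV (s : G → A →+ A) (S : AddSubgroup (G → A)) : Type _ :=
  ZV p S ⧸ (BV p s).addSubgroupOf (ZV p S)

variable {p} [Fact p.Prime]

/-- `c` represents the product of `α` and of the image of `P` under the Kummer map -/
def IsKum (s : G → A →+ A) (P : A) (α : ℚ_[p]) (c : G → ℕ → A) : Prop :=
  ∃ Q : ℕ → A, Q 0 = P ∧ (∀ n, p • Q (n + 1) = Q n) ∧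
    ∀ σ, IsMul α (fun n => s σ (Q n) - Q n) (c σ)

section

variable {s : G → A →+ A} {S : AddSubgroup (G → A)}

lemma dq_isV {Q : ℕ → A} (h0 : Q 0 ∈ Fix s) (hQ : ∀ n, p • Q (n + 1) = Q n) (σ : G) :
    IsV p (fun n => s σ (Q n) - Q n) := by
  intro n
  refine ⟨by rw [smul_sub, ← map_nsmul, hQ], n, ?_⟩
  have h1 := IsV.shift hQ 0 n
  rw [zero_add] at h1
  rw [smul_sub, ← map_nsmul, h1, h0 σ, sub_self]

/-- the Kummer cocycle -/
noncomputable def kf (s : G → A →+ A) (Q : ℕ → A) (α : ℚ_[p]) : G → ℕ → A :=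
  fun σ => mul α (fun n => s σ (Q n) - Q n)

lemma kf_coord {Q : ℕ → A} (h0 : Q 0 ∈ Fix s) (hQ : ∀ n, p • Q (n + 1) = Q n) {α : ℚ_[p]}
    {n k : ℕ} {a : ℤ} (ha : ‖(p : ℚ_[p]) ^ k * α - (a : ℚ_[p])‖ ≤ (p : ℝ) ^ (-((n + k : ℕ) : ℤ)))
    (σ : G) : kf s Q α σ n = dl s (a • Q (n + k)) σ := by
  unfold kf
  have h1 := IsV.shift hQ 0 (n + k)
  rw [zero_add] at h1
  rw [mul_spec α (dq_isV h0 hQ σ) n k (n + k) a (by
    rw [smul_sub, ← map_nsmul, h1, h0 σ, sub_self]) ha]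
  simp only [dl, map_zsmul, smul_sub]

lemma kf_mem (hcob : ∀ P, dl s P ∈ S) {Q : ℕ → A} (h0 : Q 0 ∈ Fix s)
    (hQ : ∀ n, p • Q (n + 1) = Q n) (α : ℚ_[p]) : kf s Q α ∈ ZV p S := by
  refine ⟨fun n => ?_, fun σ => mul_isV α (dq_isV h0 hQ σ)⟩
  obtain ⟨k, hk⟩ := approx α
  obtain ⟨a, ha⟩ := hk k le_rfl (n + k)
  have h1 : (fun σ => kf s Q α σ n) = dl s (a • Q (n + k)) := by
    funext σ
    exact kf_coord h0 hQ ha σ
  rw [h1]
  exact hcob _

lemma kf_add_right {Q : ℕ → A} (h0 : Q 0 ∈ Fix s) (hQ : ∀ n, p • Q (n + 1) = Q n)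
    (α β : ℚ_[p]) : kf s Q (α + β) = kf s Q α + kf s Q β := by
  funext σ
  exact mul_add_left α β (dq_isV h0 hQ σ)

lemma kf_add_left {Q R : ℕ → A} (h0 : Q 0 ∈ Fix s) (hQ : ∀ n, p • Q (n + 1) = Q n)
    (h0' : R 0 ∈ Fix s) (hR : ∀ n, p • R (n + 1) = R n) (α : ℚ_[p]) :
    kf s (Q + R) α = kf s Q α + kf s R α := by
  funext σ
  have h := mul_add_right α (dq_isV h0 hQ σ) (dq_isV h0' hR σ)
  have e : (fun n => s σ (Q n) - Q n) + (fun n => s σ (R n) - R n) =
      fun n => s σ ((Q + R) n) - (Q + R) n := by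
    funext n
    simp only [Pi.add_apply, map_add]
    abel
  rw [e] at h
  exact h

/-- the class does not depend on the choice of the sequence -/
lemma kf_indep {Q R : ℕ → A} (h0 : Q 0 ∈ Fix s) (hQ : ∀ n, p • Q (n + 1) = Q n)
    (hR : ∀ n, p • R (n + 1) = R n) (h : Q 0 = R 0) (α : ℚ_[p]) :
    kf s Q α - kf s R α ∈ BV p s := by
  have hD : ∀ n, p • (Q - R) (n + 1) = (Q - R) n := fun n => by
    rw [Pi.sub_apply, smul_sub, hQ, hR]
    rfl
  have hV : IsV p (Q - R) := by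
    intro n
    refine ⟨hD n, n, ?_⟩
    have h1 := IsV.shift hD 0 n
    rw [zero_add] at h1
    rw [h1, Pi.sub_apply, h, sub_self]
  have hD0 : (Q - R) 0 ∈ Fix s := by
    rw [Pi.sub_apply, h, sub_self]
    exact (Fix s).zero_mem
  have h0' : R 0 ∈ Fix s := h ▸ h0
  have e1 : kf s Q α = kf s R α + kf s (Q - R) α := by
    rw [← kf_add_left h0' hR hD0 hD, add_sub_cancel]
  rw [e1, add_sub_cancel_left]
  refine ⟨mul α (Q - R), mul_isV α hV, fun σ n => ?_⟩
  have h2 := mul_map (s σ) α hV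
  have h3 : IsV p (fun n => s σ ((Q - R) n)) := by
    intro n
    obtain ⟨m, hm⟩ := (hV n).2
    exact ⟨by rw [← map_nsmul, (hV n).1], m, by rw [← map_nsmul, hm, map_zero]⟩
  have h4 : kf s (Q - R) α σ + mul α (Q - R) = mul α (fun n => s σ ((Q - R) n)) := by
    unfold kf
    rw [← mul_add_right α (dq_isV hD0 hD σ) hV]
    congr 1
    funext n
    simp only [Pi.add_apply]
    abel
  have h5 := congrFun h4 n
  rw [h2, Pi.add_apply] at h5
  exact eq_sub_of_add_eq h5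

end

end

end Pool.Agent.V11329.KI
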