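import Pool.Agent.V11329.KI.Abs

/-!
# The Kummer map is an isomorphism: the abstract theorem
-/

set_option autoImplicit false

namespace Pool.Agent.V11329.KI

open TensorProduct

section alg

variable {M : Type*} [AddCommGroup M] {p : ℕ} [Fact p.Prime]

/-- torsion elements die in the tensor product -/
lemma tensor_torsion {x : M} {n : ℤ} (hn : n ≠ 0) (h : n • x = 0) (α : ℚ_[p]) :
    x ⊗ₜ[ℤ] α = 0 := by
  have hn' : (n : ℚ_[p]) ≠ 0 := by exact_mod_cast hn
  have h1 : α = n • (α / n) := by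
    rw [zsmul_eq_mul, mul_div_cancel₀ _ hn']
  rw [h1, TensorProduct.tmul_smul, TensorProduct.smul_tmul', h, TensorProduct.zero_tmul]

/-- coordinates of a finitely generated group modulo torsion -/
lemma exists_coord [Module.Finite ℤ M] : ∃ (ι : Type) (_ : Fintype ι) (_ : DecidableEq ι) (g : ι → M)
    (φ : ι → M →ₗ[ℤ] ℤ), (∀ i j, φ i (g j) = if i = j then 1 else 0) ∧
    ∀ x : M, ∃ n : ℤ, n ≠ 0 ∧ n • (x - ∑ i, φ i x • g i) = 0 := by
  classical
  have hfree : Module.Free ℤ (M ⧸ Submodule.torsion ℤ M) := inferInstance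
  obtain ⟨n, b⟩ := Module.basisOfFiniteTypeTorsionFree' (R := ℤ) (M := M ⧸ Submodule.torsion ℤ M)
  have hsurj : ∀ i, ∃ x : M, Submodule.mkQ (Submodule.torsion ℤ M) x = b i := fun i =>
    Submodule.mkQ_surjective _ _
  choose g hg using hsurj
  refine ⟨Fin n, inferInstance, inferInstance, g,
    fun i => (b.coord i).comp (Submodule.mkQ (Submodule.torsion ℤ M)), fun i j => ?_, fun x => ?_⟩
  · rw [LinearMap.comp_apply, hg, Module.Basis.coord_apply, Module.Basis.repr_self,
      Finsupp.single_apply]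
    by_cases h : i = j
    · rw [if_pos h, if_pos h.symm]
    · rw [if_neg h, if_neg (Ne.symm h)]
  · have h1 : Submodule.mkQ (Submodule.torsion ℤ M)
        (x - ∑ i, ((b.coord i).comp (Submodule.mkQ (Submodule.torsion ℤ M))) x • g i) = 0 := by
      rw [map_sub, map_sum, sub_eq_zero]
      conv_lhs => rw [← b.sum_repr (Submodule.mkQ (Submodule.torsion ℤ M) x)]
      refine Finset.sum_congr rfl fun i _ => ?_
      rw [map_smul, hg]
      rfl
    rw [Submodule.mkQ_apply, Submodule.Quotient.mk_eq_zero] at h1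
    obtain ⟨⟨a, ha⟩, h2⟩ := h1
    exact ⟨a, nonZeroDivisors.ne_zero ha, h2⟩

end alg

section

variable {G : Type*} {A : Type*} [AddCommGroup A] {p : ℕ} [Fact p.Prime]

omit [Fact p.Prime] in
/-- division sequences -/
lemma exists_div (hdiv : ∀ x : A, ∃ y, p • y = x) (P : A) :
    ∃ Q : ℕ → A, Q 0 = P ∧ ∀ n, p • Q (n + 1) = Q n := by
  choose f hf using hdiv
  exact ⟨fun n => Nat.rec P (fun _ x => f x) n, rfl, fun n => hf _⟩

/-- the Kummer cocycles exist -/
lemma exists_kum (s : G → A →+ A) (S : AddSubgroup (G → A)) (hdiv : ∀ x : A, ∃ y, p • y = x)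
    (hcob : ∀ P, dl s P ∈ S) (P : Fix s) (α : ℚ_[p]) :
    ∃ c : ZV p S, IsKum s (P : A) α c.1 := by
  obtain ⟨Q, h0, hQ⟩ := exists_div hdiv (P : A)
  have hF : Q 0 ∈ Fix s := by rw [h0]; exact P.2
  exact ⟨⟨kf s Q α, kf_mem hcob hF hQ α⟩, Q, h0, hQ, fun σ => mul_spec α (dq_isV hF hQ σ)⟩

/-- **The Kummer map is an isomorphism** -/
theorem kummer_iso (s : G → A →+ A) (S : AddSubgroup (G → A)) (hdiv : ∀ x : A, ∃ y, p • y = x)
    (hfg : Module.Finite ℤ (Fix s)) (hcob : ∀ P, dl s P ∈ S)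
    (htor : ∀ f ∈ S, (∀ σ, ∃ m : ℕ, (p ^ m : ℕ) • f σ = 0) → ∃ K : ℕ, ∀ σ, (p ^ K : ℕ) • f σ = 0)
    (m₀ : ℕ) (hS : ∀ f ∈ S, ∀ k : ℕ, (∃ P, (p ^ k : ℕ) • f = dl s P) →
      ∃ P, (p ^ m₀ : ℕ) • f = dl s P) :
    ∃ Φ : TensorProduct ℤ (Fix s) ℚ_[p] ≃+ HV p s S,
      ∀ (P : Fix s) (α : ℚ_[p]) (c : ZV p S), IsKum s (P : A) α c.1 →
        Φ (P ⊗ₜ[ℤ] α) = QuotientAddGroup.mk c := by
  classical
  have hp1 : (1 : ℝ) < p := by exact_mod_cast (Fact.out : p.Prime).one_lt
  choose Q hQ0 hQ using fun P : Fix s => exists_div hdiv (P : A)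
  have hQF : ∀ P : Fix s, Q P 0 ∈ Fix s := fun P => by rw [hQ0]; exact P.2
  -- the cocycles
  let kc : Fix s → ℚ_[p] → ZV p S := fun P α => ⟨kf s (Q P) α, kf_mem hcob (hQF P) (hQ P) α⟩
  let mk : ZV p S →+ HV p s S := QuotientAddGroup.mk' _
  have hmk : ∀ c d : ZV p S, (c.1 - d.1 ∈ BV p s) → mk c = mk d := by
    intro c d h
    rw [← sub_eq_zero, ← map_sub]
    refine (QuotientAddGroup.eq_zero_iff _).2 ?_
    rw [AddSubgroup.mem_addSubgroupOf]
    exact h
  have hadd2 : ∀ P α β, kc P (α + β) = kc P α + kc P β := fun P α β =>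
    Subtype.ext (kf_add_right (hQF P) (hQ P) α β)
  have hadd1 : ∀ P P' α, mk (kc (P + P') α) = mk (kc P α) + mk (kc P' α) := by
    intro P P' α
    rw [← map_add]
    apply hmk
    have h1 : (kc P α + kc P' α).1 = kf s (Q P + Q P') α :=
      (kf_add_left (hQF P) (hQ P) (hQF P') (hQ P') α).symm
    rw [h1]
    refine kf_indep (hQF _) (hQ _) (fun n => ?_) ?_ α
    · rw [Pi.add_apply, smul_add, hQ, hQ]
      rfl
    · rw [hQ0, Pi.add_apply, hQ0, hQ0]
      rfl
  let Φ0 : Fix s →+ ℚ_[p] →+ HV p s S := AddMonoidHom.mk'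
    (fun P => AddMonoidHom.mk' (fun α => mk (kc P α)) (fun α β => by rw [hadd2, map_add]))
    (fun P P' => by
      ext α
      exact hadd1 P P' α)
  let Φ : TensorProduct ℤ (Fix s) ℚ_[p] →+ HV p s S := TensorProduct.liftAddHom Φ0 (fun r m n => by
    rw [map_zsmul, map_zsmul]
    rfl)
  have hΦ : ∀ P α, Φ (P ⊗ₜ[ℤ] α) = mk (kc P α) := fun P α => rfl
  have hinj : Function.Injective Φ := by
    rw [injective_iff_map_eq_zero]
    intro t ht
    obtain ⟨ι, _, _, g, φ, hφ, hφt⟩ := exists_coord (M := Fix s)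
    let β : ι → TensorProduct ℤ (Fix s) ℚ_[p] →ₗ[ℤ] ℚ_[p] := fun i =>
      TensorProduct.lift ((LinearMap.lsmul ℤ ℚ_[p]).comp (φ i))
    have hdec : ∀ t, t = ∑ i, g i ⊗ₜ[ℤ] β i t := by
      intro t
      induction t using TensorProduct.induction_on with
      | zero =>
        simp only [map_zero, TensorProduct.tmul_zero, Finset.sum_const_zero]
      | tmul x α =>
        obtain ⟨n, hn, h⟩ := hφt x
        have h1 := tensor_torsion hn h α
        rw [TensorProduct.sub_tmul, sub_eq_zero] at h1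
        rw [h1, TensorProduct.sum_tmul]
        refine Finset.sum_congr rfl fun i _ => ?_
        rw [← TensorProduct.smul_tmul']
        have h2 : ∀ j, β j (x ⊗ₜ[ℤ] α) = φ j x • α := fun j => TensorProduct.lift.tmul _ _
        rw [← TensorProduct.tmul_smul]
        congr 1
        rw [← TensorProduct.sum_tmul, ← h1, h2]
      | add x y hx hy =>
        conv_lhs => rw [hx, hy]
        rw [← Finset.sum_add_distrib]
        refine Finset.sum_congr rfl fun i _ => ?_
        rw [map_add, TensorProduct.tmul_add]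
    have hβ : ∀ j, β j t = 0 := by
      -- the coboundary
      have h1 : mk (∑ i, kc (g i) (β i t)) = 0 := by
        rw [map_sum, ← ht]
        conv_rhs => rw [hdec t]
        rw [map_sum]
        rfl
      have h2 := (QuotientAddGroup.eq_zero_iff _).1 h1
      rw [AddSubgroup.mem_addSubgroupOf] at h2
      obtain ⟨X, hX, hc⟩ := h2
      have hc' : ∀ σ n, ∑ i, kf s (Q (g i)) (β i t) σ n = dl s (X n) σ := by
        intro σ n
        have h3 := hc σ n
        rw [AddSubgroup.val_finsetSum, Finset.sum_apply, Finset.sum_apply] at h3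
        exact h3
      -- approximations
      choose k₀ hk₀ using fun i => approx (p := p) (β i t)
      obtain ⟨k, hk⟩ : ∃ k, ∀ i, k₀ i ≤ k := ⟨∑ i, k₀ i, fun i =>
        Finset.single_le_sum (f := k₀) (fun _ _ => Nat.zero_le _) (Finset.mem_univ i)⟩
      obtain ⟨m, hm⟩ := (hX 0).2
      intro j
      have hbound : ∀ n : ℕ, ‖(p : ℚ_[p]) ^ k * β j t‖ ≤ (p : ℝ) ^ (-((n + k : ℕ) : ℤ)) := by
        intro n
        choose a ha using fun i => hk₀ i k (hk i) (n + k)
        have hY : dl s (∑ i, a i • Q (g i) (n + k) - X n) = 0 := by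
          funext σ
          rw [dl_sub, dl_sum, Pi.sub_apply, Finset.sum_apply, ← hc' σ n]
          rw [Pi.zero_apply, sub_eq_zero]
          refine Finset.sum_congr rfl fun i _ => ?_
          exact (kf_coord (hQF (g i)) (hQ (g i)) (ha i) σ).symm
        rw [dl_eq_zero] at hY
        obtain ⟨Y, hYv⟩ : ∃ Y : Fix s, (Y : A) = ∑ i, a i • Q (g i) (n + k) - X n := ⟨⟨_, hY⟩, rfl⟩
        have hshift : ∀ i, (p ^ (n + k) : ℕ) • Q (g i) (n + k) = (g i : A) := by
          intro i
          have h3 := IsV.shift (hQ (g i)) 0 (n + k)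
          rw [zero_add] at h3
          rw [h3, hQ0]
        have hXn : (p ^ (m + (n + k)) : ℕ) • X n = 0 := by
          have h3 := IsV.shift (fun n => (hX n).1) 0 n
          rw [zero_add] at h3
          have e : m + (n + k) = k + (m + n) := by ring
          rw [e, pow_add, pow_add, mul_smul, mul_smul, h3, hm, smul_zero]
        have h4 : ((p ^ (m + (n + k)) : ℕ) : ℤ) • Y = ((p ^ m : ℕ) : ℤ) • ∑ i, a i • g i := by
          apply Subtype.ext
          rw [AddSubgroup.coe_zsmul, AddSubgroup.coe_zsmul, hYv, AddSubgroup.val_finsetSum,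
            natCast_zsmul, natCast_zsmul, smul_sub, hXn, sub_zero, pow_add, mul_smul]
          congr 1
          rw [Finset.smul_sum]
          refine Finset.sum_congr rfl fun i _ => ?_
          rw [smul_comm, hshift i]
          rfl
        have h5 := congrArg (φ j) h4
        rw [map_zsmul, map_zsmul, map_sum] at h5
        have h6 : ∑ i, φ j (a i • g i) = a j := by
          rw [Finset.sum_eq_single j]
          · rw [map_zsmul, hφ, if_pos rfl, smul_eq_mul, mul_one]
          · intro i _ hi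
            rw [map_zsmul, hφ, if_neg (Ne.symm hi), smul_zero]
          · intro h
            exact absurd (Finset.mem_univ j) h
        rw [h6, smul_eq_mul, smul_eq_mul] at h5
        have h7 : a j = (p : ℤ) ^ (n + k) * φ j Y := by
          have hpm : ((p ^ m : ℕ) : ℤ) ≠ 0 := by
            have := (Fact.out : p.Prime).pos
            positivity
          apply mul_left_cancel₀ hpm
          rw [← h5]
          push_cast
          ring
        have h8 : ‖(a j : ℚ_[p])‖ ≤ (p : ℝ) ^ (-((n + k : ℕ) : ℤ)) := by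
          rw [Padic.norm_int_le_pow_iff_dvd, h7]
          exact Dvd.intro _ rfl
        have h9 : (p : ℚ_[p]) ^ k * β j t =
            ((p : ℚ_[p]) ^ k * β j t - (a j : ℚ_[p])) + (a j : ℚ_[p]) := by ring
        rw [h9]
        exact (Padic.nonarchimedean _ _).trans (max_le (ha j) h8)
      have hlim : ‖(p : ℚ_[p]) ^ k * β j t‖ ≤ 0 := by
        refine ge_of_tendsto' (x := Filter.atTop) (f := fun n : ℕ => (p : ℝ) ^ (-((n + k : ℕ) : ℤ)))
          ?_ hbound
        have h3 : Filter.Tendsto (fun n : ℕ => ((p : ℝ)⁻¹) ^ (n + k)) Filter.atTop (nhds 0) :=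
          (tendsto_pow_atTop_nhds_zero_of_lt_one (by positivity) (inv_lt_one_of_one_lt₀ hp1)).comp
            (Filter.tendsto_add_atTop_nat k)
        refine h3.congr fun n => ?_
        rw [zpow_neg, zpow_natCast, inv_pow]
      have h10 := norm_le_zero_iff.1 hlim
      have hp0 : (p : ℚ_[p]) ^ k ≠ 0 := by
        have := (Fact.out : p.Prime).ne_zero
        exact pow_ne_zero _ (by exact_mod_cast this)
      exact (mul_eq_zero.1 h10).resolve_left hp0
    rw [hdec t]
    refine Finset.sum_eq_zero fun i _ => ?_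
    rw [hβ i, TensorProduct.tmul_zero]
  have hsurj : Function.Surjective Φ := by
    intro x
    obtain ⟨⟨c, hc⟩, rfl⟩ := QuotientAddGroup.mk_surjective x
    have hcV : ∀ σ n, p • c σ (n + 1) = c σ n := fun σ n => (hc.2 σ n).1
    -- torsion
    obtain ⟨K, hK⟩ := htor _ (hc.1 0) (fun σ => (hc.2 σ 0).2)
    have hKn : ∀ σ n, (p ^ (n + K) : ℕ) • c σ n = 0 := by
      intro σ n
      have h1 := IsV.shift (hcV σ) 0 n
      rw [zero_add] at h1
      rw [add_comm, pow_add, mul_smul, h1]
      exact hK σ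
    -- the coordinates are coboundaries
    have hP : ∀ n, ∃ P, (fun σ => c σ n) = dl s P := by
      intro n
      have h1 : (p ^ (n + m₀ + K) : ℕ) • (fun σ => c σ (n + m₀)) = dl s 0 := by
        funext σ
        rw [Pi.smul_apply, hKn σ (n + m₀)]
        simp [dl]
      obtain ⟨P, hP⟩ := hS _ (hc.1 (n + m₀)) (n + m₀ + K) ⟨0, h1⟩
      refine ⟨P, ?_⟩
      rw [← hP]
      funext σ
      rw [Pi.smul_apply]
      exact (IsV.shift (hcV σ) n m₀).symm
    choose P hP using hP
    have hP' : ∀ n σ, c σ n = dl s (P n) σ := fun n σ => congrFun (hP n) σ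
    -- the rational points
    have hSn : ∀ n, (p ^ (n + K) : ℕ) • P n ∈ Fix s := by
      intro n
      rw [← dl_eq_zero, dl_nsmul]
      funext σ
      rw [Pi.smul_apply, ← hP' n σ, hKn]
      rfl
    have hRn : ∀ n, p • P (n + 1) - P n ∈ Fix s := by
      intro n
      rw [← dl_eq_zero, dl_sub, dl_nsmul]
      funext σ
      rw [Pi.sub_apply, Pi.smul_apply, ← hP' n σ, ← hP' (n + 1) σ, hcV, sub_self]
      rfl
    obtain ⟨r, g, hg⟩ := Module.Finite.exists_fin (R := ℤ) (M := Fix s)
    have hgen : ∀ y : Fix s, ∃ a : Fin r → ℤ, ∑ i, a i • g i = y := by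
      intro y
      have h1 : y ∈ Submodule.span ℤ (Set.range g) := by rw [hg]; trivial
      exact (Submodule.mem_span_range_iff_exists_fun ℤ).1 h1
    choose w hw using hgen
    obtain ⟨S0, hS0⟩ : ∃ S0 : Fix s, (S0 : A) = (p ^ (0 + K) : ℕ) • P 0 := ⟨⟨_, hSn 0⟩, rfl⟩
    obtain ⟨Rr, hRr⟩ : ∃ Rr : ℕ → Fix s, ∀ n, (Rr n : A) = p • P (n + 1) - P n :=
      ⟨fun n => ⟨_, hRn n⟩, fun n => rfl⟩
    -- the coordinates of `S n`
    obtain ⟨sc, hsc0, hsc⟩ : ∃ sc : ℕ → Fin r → ℤ, sc 0 = w S0 ∧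
        ∀ n, sc (n + 1) = fun i => sc n i + p ^ (n + K) * w (Rr n) i :=
      ⟨fun n => Nat.rec (w S0) (fun n x i => x i + p ^ (n + K) * w (Rr n) i) n, rfl, fun n => rfl⟩
    have hsum : ∀ n, ((∑ i, sc n i • g i : Fix s) : A) = (p ^ (n + K) : ℕ) • P n := by
      intro n
      induction n with
      | zero => rw [hsc0, hw, hS0]
      | succ n ih =>
        have e1 : (∑ i, sc (n + 1) i • g i : Fix s) =
            ∑ i, sc n i • g i + ((p ^ (n + K) : ℕ) : ℤ) • Rr n := by
          conv_rhs => rw [← hw (Rr n)]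
          rw [Finset.smul_sum, ← Finset.sum_add_distrib]
          refine Finset.sum_congr rfl fun i _ => ?_
          rw [hsc, ← mul_smul, ← add_smul]
          push_cast
          rfl
        rw [e1, AddSubgroup.coe_add, ih, AddSubgroup.coe_zsmul, hRr, natCast_zsmul, smul_sub]
        rw [add_sub_cancel, ← mul_smul, ← pow_succ]
        congr 2
        ring
    -- the limits
    have hlim : ∀ i, ∃ z : ℚ_[p], ∀ n, ‖z - (sc n i : ℚ_[p])‖ ≤ (p : ℝ) ^ (-((n + K : ℕ) : ℤ)) := by
      intro i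
      have hstep : ∀ n, ‖(sc (n + 1) i : ℚ_[p]) - (sc n i : ℚ_[p])‖ ≤
          (p : ℝ) ^ (-((n + K : ℕ) : ℤ)) := by
        intro n
        have e : (sc (n + 1) i : ℚ_[p]) - (sc n i : ℚ_[p]) =
            (((p : ℤ) ^ (n + K) * w (Rr n) i : ℤ) : ℚ_[p]) := by
          rw [hsc]
          push_cast
          ring
        rw [e, Padic.norm_int_le_pow_iff_dvd]
        exact Dvd.intro _ rfl
      have hfar : ∀ n d, ‖(sc (n + d) i : ℚ_[p]) - (sc n i : ℚ_[p])‖ ≤
          (p : ℝ) ^ (-((n + K : ℕ) : ℤ)) := by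
        intro n d
        induction d with
        | zero =>
          rw [add_zero, sub_self, norm_zero]
          positivity
        | succ d ih =>
          have e : (sc (n + (d + 1)) i : ℚ_[p]) - (sc n i : ℚ_[p]) =
              ((sc (n + d + 1) i : ℚ_[p]) - (sc (n + d) i : ℚ_[p])) +
                ((sc (n + d) i : ℚ_[p]) - (sc n i : ℚ_[p])) := by
            rw [← add_assoc]
            ring
          rw [e]
          refine (Padic.nonarchimedean _ _).trans (max_le ((hstep (n + d)).trans ?_) ih)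
          exact zpow_le_zpow_right₀ hp1.le (by push_cast; linarith)
      have hcau : CauchySeq (fun n => (sc n i : ℚ_[p])) := by
        rw [Metric.cauchySeq_iff']
        intro ε hε
        obtain ⟨N, hN⟩ := exists_pow_lt_of_lt_one hε (inv_lt_one_of_one_lt₀ hp1)
        refine ⟨N, fun n hn => ?_⟩
        obtain ⟨d, rfl⟩ := Nat.exists_eq_add_of_le hn
        rw [dist_eq_norm]
        refine (hfar N d).trans_lt (lt_of_le_of_lt ?_ hN)
        rw [inv_pow, ← zpow_natCast, ← zpow_neg]
        exact zpow_le_zpow_right₀ hp1.le (by push_cast; linarith)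
      obtain ⟨z, hz⟩ := cauchySeq_tendsto_of_complete hcau
      refine ⟨z, fun n => ?_⟩
      have h1 : Filter.Tendsto (fun N => ‖(sc N i : ℚ_[p]) - (sc n i : ℚ_[p])‖) Filter.atTop
          (nhds ‖z - (sc n i : ℚ_[p])‖) := (hz.sub_const _).norm
      refine le_of_tendsto h1 ?_
      filter_upwards [Filter.eventually_ge_atTop n] with N hN
      obtain ⟨d, rfl⟩ := Nat.exists_eq_add_of_le hN
      exact hfar n d
    choose z hz using hlim
    have hp0 : (p : ℚ_[p]) ^ K ≠ 0 := by
      have := (Fact.out : p.Prime).ne_zero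
      exact pow_ne_zero _ (by exact_mod_cast this)
    refine ⟨∑ i, g i ⊗ₜ[ℤ] (z i / (p : ℚ_[p]) ^ K), ?_⟩
    rw [map_sum]
    have h1 : ∑ i, Φ (g i ⊗ₜ[ℤ] (z i / (p : ℚ_[p]) ^ K)) =
        mk (∑ i, kc (g i) (z i / (p : ℚ_[p]) ^ K)) := by
      rw [map_sum]
      rfl
    rw [h1]
    have hcoord : ∀ i σ n, kf s (Q (g i)) (z i / (p : ℚ_[p]) ^ K) σ n =
        dl s (sc n i • Q (g i) (n + K)) σ := by
      intro i σ n
      refine kf_coord (hQF (g i)) (hQ (g i)) ?_ σ
      rw [mul_div_cancel₀ _ hp0]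
      exact hz i n
    refine (hmk ⟨c, hc⟩ _ ?_).symm
    refine ⟨fun n => P n - ∑ i, sc n i • Q (g i) (n + K), ?_, ?_⟩
    · have hQK : ∀ i n, (p ^ (n + K) : ℕ) • Q (g i) (n + K) = (g i : A) := by
        intro i n
        have h3 := IsV.shift (hQ (g i)) 0 (n + K)
        rw [zero_add] at h3
        rw [h3, hQ0]
      intro n
      refine ⟨?_, n + K, ?_⟩
      · rw [smul_sub, Finset.smul_sum]
        have e1 : ∀ i, p • (sc (n + 1) i • Q (g i) (n + 1 + K)) =
            sc n i • Q (g i) (n + K) + w (Rr n) i • (g i : A) := by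
          intro i
          have e2 : n + 1 + K = n + K + 1 := by ring
          rw [smul_comm, e2, hQ (g i) (n + K), hsc, add_smul]
          congr 1
          rw [mul_comm, mul_smul]
          congr 1
          rw [← hQK i n, ← natCast_zsmul]
          push_cast
          rfl
        rw [Finset.sum_congr rfl (fun i _ => e1 i), Finset.sum_add_distrib]
        have e3 : ∑ i, w (Rr n) i • (g i : A) = p • P (n + 1) - P n := by
          rw [← hRr n, ← hw (Rr n), AddSubgroup.val_finsetSum]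
          refine Finset.sum_congr rfl fun i _ => ?_
          rw [hw (Rr n)]
          rfl
        rw [e3]
        show _ = P n - ∑ i, sc n i • Q (g i) (n + K)
        rw [sub_add_eq_sub_sub, sub_right_comm, sub_sub_cancel]
      · rw [smul_sub, Finset.smul_sum, ← hsum n, AddSubgroup.val_finsetSum, sub_eq_zero]
        refine Finset.sum_congr rfl fun i _ => ?_
        rw [smul_comm, hQK i n]
        rfl
    · intro σ n
      have e1 : (∑ i, kc (g i) (z i / (p : ℚ_[p]) ^ K) : ZV p S).1 σ n =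
          ∑ i, dl s (sc n i • Q (g i) (n + K)) σ := by
        rw [AddSubgroup.val_finsetSum, Finset.sum_apply, Finset.sum_apply]
        exact Finset.sum_congr rfl fun i _ => hcoord i σ n
      rw [Pi.sub_apply, Pi.sub_apply, e1]
      show c σ n - _ = dl s (P n - ∑ i, sc n i • Q (g i) (n + K)) σ
      rw [dl_sub, dl_sum, Pi.sub_apply, Finset.sum_apply, hP' n σ]
  refine ⟨AddEquiv.ofBijective Φ ⟨hinj, hsurj⟩, fun P α c hcK => ?_⟩
  show Φ (P ⊗ₜ[ℤ] α) = mk c
  rw [hΦ]
  apply hmk
  obtain ⟨R, hR0, hR, hmul⟩ := hcK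
  have h1 : c.1 = kf s R α := by
    funext σ
    exact mul_unique (dq_isV (s := s) (by rw [hR0]; exact P.2) hR σ) (hmul σ)
  rw [h1]
  exact kf_indep (hQF P) (hQ P) hR (by rw [hQ0, hR0]) α

end

end Pool.Agent.V11329.KI
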