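import Mathlib

/-!
# The multiplication by p-adic numbers on the rational Tate module of an abelian group

The elements of `V_p(A)` are the sequences `x₀, x₁, …` of elements of `p`-power order of `A` with
`p x_{n+1} = x_n`.
-/

set_option autoImplicit false

namespace Pool.Agent.V11329.KI

section

variable {A : Type*} [AddCommGroup A] (p : ℕ)

/-- `x` is an element of the rational Tate module of `A`. -/
def IsV (x : ℕ → A) : Prop := ∀ n, p • x (n + 1) = x n ∧ ∃ m : ℕ, (p ^ m : ℕ) • x n = 0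

variable {p}

lemma IsV.zero : IsV p (0 : ℕ → A) := fun _ => ⟨smul_zero _, 0, smul_zero _⟩

lemma IsV.add {x y : ℕ → A} (hx : IsV p x) (hy : IsV p y) : IsV p (x + y) := by
  intro n
  obtain ⟨m, hm⟩ := (hx n).2
  obtain ⟨k, hk⟩ := (hy n).2
  refine ⟨by rw [Pi.add_apply, smul_add, (hx n).1, (hy n).1]; rfl, m + k, ?_⟩
  rw [Pi.add_apply, smul_add, pow_add, mul_smul (p ^ m) (p ^ k) (y n), hk, smul_zero, add_zero,
    mul_comm, mul_smul, hm, smul_zero]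

lemma IsV.neg {x : ℕ → A} (hx : IsV p x) : IsV p (-x) := by
  intro n
  obtain ⟨m, hm⟩ := (hx n).2
  exact ⟨by rw [Pi.neg_apply, smul_neg, (hx n).1]; rfl, m, by rw [Pi.neg_apply, smul_neg, hm, neg_zero]⟩

lemma IsV.sub {x y : ℕ → A} (hx : IsV p x) (hy : IsV p y) : IsV p (x - y) := by
  rw [sub_eq_add_neg]
  exact hx.add hy.neg

lemma IsV.shift {x : ℕ → A} (hx : ∀ n, p • x (n + 1) = x n) (n d : ℕ) :
    (p ^ d : ℕ) • x (n + d) = x n := by
  induction d with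
  | zero => simp
  | succ d ih => rw [pow_succ, mul_smul, ← add_assoc, hx (n + d), ih]

variable [Fact p.Prime]

/-- `y` is the product of the `p`-adic number `α` and `x`: if the integer `a` is so close to
`p ^ k α` that `a x_{n+k}` does not depend on its choice, then `y_n = a x_{n+k}`. -/
def IsMul (α : ℚ_[p]) (x y : ℕ → A) : Prop := ∀ (n k m : ℕ) (a : ℤ), (p ^ m : ℕ) • x (n + k) = 0 →
  ‖(p : ℚ_[p]) ^ k * α - (a : ℚ_[p])‖ ≤ (p : ℝ) ^ (-(m : ℤ)) → y n = a • x (n + k)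

/-- a `p`-adic number multiplied by a power of `p` is close to integers -/
lemma approx (α : ℚ_[p]) : ∃ k₀ : ℕ, ∀ k, k₀ ≤ k → ∀ m : ℕ, ∃ a : ℤ,
    ‖(p : ℚ_[p]) ^ k * α - (a : ℚ_[p])‖ ≤ (p : ℝ) ^ (-(m : ℤ)) := by
  have hp1 : (1 : ℝ) < p := by exact_mod_cast (Fact.out : p.Prime).one_lt
  obtain ⟨k₀, hk₀⟩ := pow_unbounded_of_one_lt ‖α‖ hp1
  refine ⟨k₀, fun k hk m => ?_⟩
  have h1 : ‖(p : ℚ_[p]) ^ k * α‖ ≤ 1 := by
    rw [norm_mul, norm_pow, Padic.norm_p, inv_pow]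
    have h2 : ‖α‖ ≤ (p : ℝ) ^ k := hk₀.le.trans (pow_le_pow_right₀ hp1.le hk)
    have h3 : (0 : ℝ) < (p : ℝ) ^ k := by positivity
    rw [inv_mul_le_iff₀ h3, mul_one]
    exact h2
  obtain ⟨z, hz⟩ : ∃ z : ℤ_[p], (z : ℚ_[p]) = (p : ℚ_[p]) ^ k * α := ⟨⟨_, h1⟩, rfl⟩
  refine ⟨(z.appr m : ℤ), ?_⟩
  have h2 := PadicInt.appr_spec m z
  have h3 := (PadicInt.norm_le_pow_iff_mem_span_pow (z - (z.appr m : ℤ_[p])) m).2 h2
  rw [← hz]
  have h4 : ((z - (z.appr m : ℤ_[p]) : ℤ_[p]) : ℚ_[p]) = (z : ℚ_[p]) - (((z.appr m : ℕ) : ℤ) : ℚ_[p]) := by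
    push_cast
    rfl
  rw [← h4]
  exact h3

/-- a multiple of `p ^ m` annihilates the elements of order dividing `p ^ m` -/
lemma smul_zero_of {y : A} {m : ℕ} {a : ℤ} (hy : (p ^ m : ℕ) • y = 0)
    (ha : ‖(a : ℚ_[p])‖ ≤ (p : ℝ) ^ (-(m : ℤ))) : a • y = 0 := by
  rw [Padic.norm_int_le_pow_iff_dvd] at ha
  obtain ⟨b, rfl⟩ := ha
  rw [mul_comm, mul_smul]
  have h1 : ((p ^ m : ℕ) : ℤ) • y = 0 := by rw [natCast_zsmul]; exact hy
  push_cast at h1
  rw [h1, smul_zero]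

lemma na_sub (x y : ℚ_[p]) : ‖x - y‖ ≤ max ‖x‖ ‖y‖ := by
  have h := Padic.nonarchimedean x (-y)
  rw [norm_neg, ← sub_eq_add_neg] at h
  exact h

lemma wd_aux {x : ℕ → A} (hx : ∀ n, p • x (n + 1) = x n) {α : ℚ_[p]} {n k k' m m' : ℕ} {a a' : ℤ}
    (hk : k ≤ k')
    (h1 : (p ^ m : ℕ) • x (n + k) = 0)
    (h2 : ‖(p : ℚ_[p]) ^ k * α - (a : ℚ_[p])‖ ≤ (p : ℝ) ^ (-(m : ℤ)))
    (h1' : (p ^ m' : ℕ) • x (n + k') = 0)
    (h2' : ‖(p : ℚ_[p]) ^ k' * α - (a' : ℚ_[p])‖ ≤ (p : ℝ) ^ (-(m' : ℤ))) :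
    a • x (n + k) = a' • x (n + k') := by
  obtain ⟨d, rfl⟩ := Nat.exists_eq_add_of_le hk
  have hp0 : (0 : ℝ) < p := by exact_mod_cast (Fact.out : p.Prime).pos
  have hs := IsV.shift hx (n + k) d
  rw [add_assoc] at hs
  have h3 : ‖(p : ℚ_[p]) ^ (k + d) * α - ((p ^ d * a : ℤ) : ℚ_[p])‖ ≤
      (p : ℝ) ^ (-((m + d : ℕ) : ℤ)) := by
    have e : (p : ℚ_[p]) ^ (k + d) * α - ((p ^ d * a : ℤ) : ℚ_[p]) =
        (p : ℚ_[p]) ^ d * ((p : ℚ_[p]) ^ k * α - (a : ℚ_[p])) := by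
      push_cast
      ring
    rw [e, norm_mul, norm_pow, Padic.norm_p]
    have e2 : (p : ℝ) ^ (-((m + d : ℕ) : ℤ)) = ((p : ℝ)⁻¹) ^ d * (p : ℝ) ^ (-(m : ℤ)) := by
      rw [inv_pow, ← zpow_natCast, ← zpow_neg, ← zpow_add₀ hp0.ne']
      congr 1
      push_cast
      ring
    rw [e2]
    exact mul_le_mul_of_nonneg_left h2 (by positivity)
  have h5 : (p ^ (m + d) : ℕ) • x (n + (k + d)) = 0 := by
    rw [pow_add, mul_smul, hs, h1]
  have key : (a' - p ^ d * a : ℤ) • x (n + (k + d)) = 0 := by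
    rcases le_total m' (m + d) with h | h
    · refine smul_zero_of h1' ?_
      have e : ((a' - p ^ d * a : ℤ) : ℚ_[p]) =
          ((p : ℚ_[p]) ^ (k + d) * α - ((p ^ d * a : ℤ) : ℚ_[p])) -
            ((p : ℚ_[p]) ^ (k + d) * α - (a' : ℚ_[p])) := by
        push_cast
        ring
      rw [e]
      refine (na_sub _ _).trans (max_le (h3.trans ?_) h2')
      exact zpow_le_zpow_right₀ (by exact_mod_cast (Fact.out : p.Prime).one_lt.le) (by
        push_cast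
        have : (m' : ℤ) ≤ m + d := by exact_mod_cast h
        linarith)
    · refine smul_zero_of h5 ?_
      have e : ((a' - p ^ d * a : ℤ) : ℚ_[p]) =
          ((p : ℚ_[p]) ^ (k + d) * α - ((p ^ d * a : ℤ) : ℚ_[p])) -
            ((p : ℚ_[p]) ^ (k + d) * α - (a' : ℚ_[p])) := by
        push_cast
        ring
      rw [e]
      refine (na_sub _ _).trans (max_le h3 (h2'.trans ?_))
      exact zpow_le_zpow_right₀ (by exact_mod_cast (Fact.out : p.Prime).one_lt.le) (by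
        push_cast
        have : (m + d : ℤ) ≤ m' := by exact_mod_cast h
        linarith)
  rw [sub_smul, sub_eq_zero] at key
  rw [key, mul_smul, ← hs]
  have e3 : ((p : ℤ) ^ d) • (a • x (n + (k + d))) = a • ((p ^ d : ℕ) • x (n + (k + d))) := by
    rw [smul_comm]
    congr 1
    rw [← natCast_zsmul]
    push_cast
    rfl
  rw [e3]

lemma wd {x : ℕ → A} (hx : ∀ n, p • x (n + 1) = x n) {α : ℚ_[p]} {n k k' m m' : ℕ} {a a' : ℤ}
    (h1 : (p ^ m : ℕ) • x (n + k) = 0)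
    (h2 : ‖(p : ℚ_[p]) ^ k * α - (a : ℚ_[p])‖ ≤ (p : ℝ) ^ (-(m : ℤ)))
    (h1' : (p ^ m' : ℕ) • x (n + k') = 0)
    (h2' : ‖(p : ℚ_[p]) ^ k' * α - (a' : ℚ_[p])‖ ≤ (p : ℝ) ^ (-(m' : ℤ))) :
    a • x (n + k) = a' • x (n + k') := by
  rcases le_total k k' with h | h
  · exact wd_aux hx h h1 h2 h1' h2'
  · exact (wd_aux hx h h1' h2' h1 h2).symm

/-- data for the computation of a product -/
lemma data (α : ℚ_[p]) {x : ℕ → A} (hx : IsV p x) (n : ℕ) : ∃ (k m : ℕ) (a : ℤ),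
    (p ^ m : ℕ) • x (n + k) = 0 ∧
    ‖(p : ℚ_[p]) ^ k * α - (a : ℚ_[p])‖ ≤ (p : ℝ) ^ (-(m : ℤ)) := by
  obtain ⟨k, hk⟩ := approx α
  obtain ⟨m, hm⟩ := (hx (n + k)).2
  obtain ⟨a, ha⟩ := hk k le_rfl m
  exact ⟨k, m, a, hm, ha⟩

open Classical in
/-- the product of a `p`-adic number and an element of the rational Tate module -/
noncomputable def mul (α : ℚ_[p]) (x : ℕ → A) (n : ℕ) : A :=
  if hx : IsV p x then (data α hx n).choose_spec.choose_spec.choose • x (n + (data α hx n).choose)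
  else 0

lemma mul_spec (α : ℚ_[p]) {x : ℕ → A} (hx : IsV p x) : IsMul α x (mul α x) := by
  intro n k m a h1 h2
  unfold mul
  rw [dif_pos hx]
  have h3 := (data α hx n).choose_spec.choose_spec.choose_spec
  exact wd (fun n => (hx n).1) h3.1 h3.2 h1 h2

lemma mul_unique {α : ℚ_[p]} {x y : ℕ → A} (hx : IsV p x) (h : IsMul α x y) : y = mul α x := by
  funext n
  obtain ⟨k, m, a, h1, h2⟩ := data α hx n
  rw [h n k m a h1 h2, mul_spec α hx n k m a h1 h2]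

/-- common data for two elements of the rational Tate module and two indices -/
lemma data2 (α : ℚ_[p]) {x y : ℕ → A} (hx : IsV p x) (hy : IsV p y) (n : ℕ) : ∃ (k m : ℕ) (a : ℤ),
    (p ^ m : ℕ) • x (n + k) = 0 ∧ (p ^ m : ℕ) • y (n + k) = 0 ∧
    ‖(p : ℚ_[p]) ^ k * α - (a : ℚ_[p])‖ ≤ (p : ℝ) ^ (-(m : ℤ)) := by
  obtain ⟨k, hk⟩ := approx α
  obtain ⟨m, hm⟩ := (hx (n + k)).2
  obtain ⟨m', hm'⟩ := (hy (n + k)).2
  obtain ⟨a, ha⟩ := hk k le_rfl (m + m')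
  refine ⟨k, m + m', a, ?_, ?_, ha⟩
  · rw [pow_add, mul_comm, mul_smul, hm, smul_zero]
  · rw [pow_add, mul_smul, hm', smul_zero]

lemma mul_add_right (α : ℚ_[p]) {x y : ℕ → A} (hx : IsV p x) (hy : IsV p y) :
    mul α (x + y) = mul α x + mul α y := by
  funext n
  obtain ⟨k, m, a, h1, h2, h3⟩ := data2 α hx hy n
  rw [Pi.add_apply, mul_spec α hx n k m a h1 h3, mul_spec α hy n k m a h2 h3,
    mul_spec α (hx.add hy) n k m a (by rw [Pi.add_apply, smul_add, h1, h2, add_zero]) h3,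
    Pi.add_apply, smul_add]

lemma mul_isV (α : ℚ_[p]) {x : ℕ → A} (hx : IsV p x) : IsV p (mul α x) := by
  intro n
  obtain ⟨k, hk⟩ := approx α
  obtain ⟨m, hm⟩ := (hx (n + k)).2
  obtain ⟨m', hm'⟩ := (hx (n + 1 + k)).2
  obtain ⟨a, ha⟩ := hk k le_rfl (m + m')
  have h1 : (p ^ (m + m') : ℕ) • x (n + k) = 0 := by
    rw [pow_add, mul_comm, mul_smul, hm, smul_zero]
  have h2 : (p ^ (m + m') : ℕ) • x (n + 1 + k) = 0 := by rw [pow_add, mul_smul, hm', smul_zero]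
  have e1 := mul_spec α hx n k (m + m') a h1 ha
  have e2 := mul_spec α hx (n + 1) k (m + m') a h2 ha
  refine ⟨?_, m + m', ?_⟩
  · rw [e1, e2, smul_comm]
    congr 1
    have := (hx (n + k)).1
    rw [← this]
    congr 2
    omega
  · rw [e1, smul_comm, h1, smul_zero]

lemma mul_add_left (α β : ℚ_[p]) {x : ℕ → A} (hx : IsV p x) :
    mul (α + β) x = mul α x + mul β x := by
  funext n
  obtain ⟨k, hk⟩ := approx α
  obtain ⟨l, hl⟩ := approx β
  obtain ⟨m, hm⟩ := (hx (n + (k + l))).2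
  obtain ⟨a, ha⟩ := hk (k + l) (by omega) m
  obtain ⟨b, hb⟩ := hl (k + l) (by omega) m
  have hab : ‖(p : ℚ_[p]) ^ (k + l) * (α + β) - ((a + b : ℤ) : ℚ_[p])‖ ≤ (p : ℝ) ^ (-(m : ℤ)) := by
    have e : (p : ℚ_[p]) ^ (k + l) * (α + β) - ((a + b : ℤ) : ℚ_[p]) =
        ((p : ℚ_[p]) ^ (k + l) * α - (a : ℚ_[p])) + ((p : ℚ_[p]) ^ (k + l) * β - (b : ℚ_[p])) := by
      push_cast
      ring
    rw [e]
    exact (Padic.nonarchimedean _ _).trans (max_le ha hb)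
  rw [Pi.add_apply, mul_spec _ hx n (k + l) m _ hm ha, mul_spec _ hx n (k + l) m _ hm hb,
    mul_spec _ hx n (k + l) m _ hm hab, add_smul]

/-- the product is compatible with homomorphisms -/
lemma mul_map {B : Type*} [AddCommGroup B] (f : A →+ B) (α : ℚ_[p]) {x : ℕ → A} (hx : IsV p x) :
    mul α (fun n => f (x n)) = fun n => f (mul α x n) := by
  have hfx : IsV p (fun n => f (x n)) := by
    intro n
    obtain ⟨m, hm⟩ := (hx n).2
    exact ⟨by rw [← map_nsmul, (hx n).1], m, by rw [← map_nsmul, hm, map_zero]⟩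
  funext n
  obtain ⟨k, m, a, h1, h2⟩ := data α hx n
  rw [mul_spec α hx n k m a h1 h2,
    mul_spec α hfx n k m a (by rw [← map_nsmul, h1, map_zero]) h2, map_zsmul]

end

end Pool.Agent.V11329.KI
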